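import Pool.Agent.H37.CNM.Stmts

set_option autoImplicit false

namespace Pool.CND

/-- the index of the centraliser of an element `a ≠ 1` of a normal subgroup `A` is `< |A|` -/
theorem pm4_index_lt {G : Type} [Group G] [Finite G] (A : Subgroup G) [A.Normal] (a : G)
    (ha : a ∈ A) (ha1 : a ≠ 1) :
    (Subgroup.centralizer ({a} : Set G)).index < Nat.card A := by
  letI act : MulAction G A := MulAction.compHom A (MulAut.conjNormal : G →* MulAut A)
  have hsm : ∀ (g : G) (y : A), ((g • y : A) : G) = g * y * g⁻¹ := fun g y =>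
    MulAut.conjNormal_apply g y
  have hst : MulAction.stabilizer G (⟨a, ha⟩ : A) = Subgroup.centralizer ({a} : Set G) := by
    ext g
    rw [MulAction.mem_stabilizer_iff, Subgroup.mem_centralizer_iff]
    constructor
    · intro h x hx
      rw [Set.mem_singleton_iff.1 hx]
      have h2 := congrArg Subtype.val h
      rw [hsm] at h2
      change g * a * g⁻¹ = a at h2
      calc a * g = (g * a * g⁻¹) * g := by rw [h2]
        _ = g * a := by group
    · intro h
      have h2 := h a (Set.mem_singleton a)
      apply Subtype.ext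
      rw [hsm]
      change g * a * g⁻¹ = a
      rw [← h2]
      group
  rw [← hst, MulAction.index_stabilizer]
  have hsub : MulAction.orbit G (⟨a, ha⟩ : A) ⊆ (Set.univ : Set A) \ {1} := by
    rintro _ ⟨g, rfl⟩
    refine ⟨Set.mem_univ _, ?_⟩
    intro h
    have h0 : (g • (⟨a, ha⟩ : A) : A) = 1 := h
    apply ha1
    have h2 := congrArg Subtype.val h0
    rw [hsm] at h2
    change g * a * g⁻¹ = 1 at h2
    calc a = g⁻¹ * (g * a * g⁻¹) * g := by group
      _ = 1 := by rw [h2]; group
  have h1 : (MulAction.orbit G (⟨a, ha⟩ : A)).ncard ≤ ((Set.univ : Set A) \ {1}).ncard :=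
    Set.ncard_le_ncard hsub (Set.toFinite _)
  have h2 : ((Set.univ : Set A) \ {1}).ncard < (Set.univ : Set A).ncard :=
    Set.ncard_diff_singleton_lt_of_mem (Set.mem_univ _) (Set.toFinite _)
  rw [Set.ncard_univ] at h2
  exact lt_of_le_of_lt h1 h2

theorem pm4 (p : ℕ) (G : Type) [Group G] [Finite G] (A : Subgroup G) (hp : p.Prime)
    (hG : Nat.card G ∣ p ^ 4) (hA : MNE p A) :
    (Subgroup.centralizer (A : Set G)).index ∣ p := by
  classical
  have : Fact p.Prime := ⟨hp⟩
  obtain ⟨hN, ⟨hE, hC⟩, _⟩ := hA
  have := hN
  obtain ⟨n, hn4, hn⟩ := (Nat.dvd_prime_pow hp).1 hG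
  have hAd : Nat.card A ∣ Nat.card G := Subgroup.card_subgroup_dvd_card A
  obtain ⟨r, hr4, hr⟩ := (Nat.dvd_prime_pow hp).1 (hAd.trans hG)
  have hind : ∀ H : Subgroup G, ∃ j, H.index = p ^ j := by
    intro H
    have h1 : H.index ∣ Nat.card G := Subgroup.index_dvd_card H
    rw [hn] at h1
    obtain ⟨j, _, hj⟩ := (Nat.dvd_prime_pow hp).1 h1
    exact ⟨j, hj⟩
  obtain ⟨m, hm⟩ := hind (Subgroup.centralizer (A : Set G))
  have hle : A ≤ Subgroup.centralizer (A : Set G) := by
    intro a ha
    rw [Subgroup.mem_centralizer_iff]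
    intro b hb
    exact hC b hb a ha
  -- the bound `m + r ≤ 4`
  have hsum : m + r ≤ 4 := by
    have h1 : Nat.card A ∣ Nat.card (Subgroup.centralizer (A : Set G)) :=
      Subgroup.card_dvd_of_le hle
    have h2 : (Subgroup.centralizer (A : Set G)).index * Nat.card A ∣ p ^ 4 := by
      refine dvd_trans ?_ hG
      rw [← Subgroup.index_mul_card (Subgroup.centralizer (A : Set G))]
      exact Nat.mul_dvd_mul_left _ h1
    rw [hm, hr, ← pow_add] at h2
    exact (Nat.pow_dvd_pow_iff_le_right hp.one_lt).1 h2
  -- it is enough to have `m ≤ 1`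
  suffices h : m ≤ 1 by
    rw [hm]
    calc p ^ m ∣ p ^ 1 := pow_dvd_pow p h
      _ = p := pow_one p
  -- if `A` is generated by central elements and `a`, then `m < r`
  have key : ∀ (Z : Subgroup G) (a : G), Z ≤ Subgroup.center G → a ∈ A → a ≠ 1 →
      A ≤ Z ⊔ Subgroup.zpowers a → m < r := by
    intro Z a hZ ha ha1 hgen
    have hce : Subgroup.centralizer (A : Set G) = Subgroup.centralizer ({a} : Set G) := by
      apply le_antisymm
      · apply Subgroup.centralizer_le
        intro x hx
        rw [Set.mem_singleton_iff.1 hx]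
        exact ha
      · intro g hg
        have hga : a * g = g * a := (Subgroup.mem_centralizer_iff.1 hg) a (Set.mem_singleton a)
        have hsub : A ≤ Subgroup.centralizer ({g} : Set G) := by
          refine hgen.trans (sup_le ?_ ?_)
          · intro z hz
            rw [Subgroup.mem_centralizer_iff]
            intro x hx
            rw [Set.mem_singleton_iff.1 hx]
            exact (Subgroup.mem_center_iff.1 (hZ hz)) g
          · rw [Subgroup.zpowers_le, Subgroup.mem_centralizer_iff]
            intro x hx
            rw [Set.mem_singleton_iff.1 hx]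
            exact hga.symm
        rw [Subgroup.mem_centralizer_iff]
        intro b hb
        exact ((Subgroup.mem_centralizer_iff.1 (hsub hb)) g (Set.mem_singleton g)).symm
    have hlt := pm4_index_lt A a ha ha1
    rw [← hce, hm, hr] at hlt
    exact (Nat.pow_lt_pow_iff_right hp.one_lt).1 hlt
  rcases Nat.lt_or_ge r 3 with hr3 | hr3
  swap
  · omega
  interval_cases r
  · -- `A = 1`
    have hA1 : A = ⊥ := Subgroup.eq_bot_of_card_eq A (by rw [hr, pow_zero])
    have : (Subgroup.centralizer (A : Set G)).index = 1 := by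
      rw [Subgroup.index_eq_one, eq_top_iff]
      intro g _
      rw [Subgroup.mem_centralizer_iff]
      intro b hb
      rw [hA1] at hb
      have hb1 : b = 1 := by simpa using hb
      rw [hb1, one_mul, mul_one]
    rw [this] at hm
    rcases Nat.eq_zero_or_pos m with h0 | h0
    · omega
    · have := Nat.one_lt_pow (Nat.pos_iff_ne_zero.1 h0) hp.one_lt
      omega
  · -- `|A| = p`
    have hAnt : ∃ a ∈ A, a ≠ 1 := by
      by_contra hcon
      push Not at hcon
      have : A = ⊥ := (Subgroup.eq_bot_iff_forall A).2 hcon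
      rw [this, Subgroup.card_bot, pow_one] at hr
      exact hp.one_lt.ne hr
    obtain ⟨a, ha, ha1⟩ := hAnt
    have hgen : A ≤ ⊥ ⊔ Subgroup.zpowers a := by
      have hord : orderOf a = p := orderOf_eq_prime (hE a ha) ha1
      have hza : Subgroup.zpowers a ≤ A := by rwa [Subgroup.zpowers_le]
      have : Subgroup.zpowers a = A := by
        apply Subgroup.eq_of_le_of_card_ge hza
        rw [hr, pow_one, Nat.card_zpowers, hord]
      rw [bot_sup_eq, this]
    have := key ⊥ a bot_le ha ha1 hgen
    omega
  · -- `|A| = p ^ 2`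
    have hPG : IsPGroup p (ConjAct G) := by
      refine IsPGroup.of_card (n := n) ?_
      rw [← hn]
      exact Nat.card_congr (ConjAct.ofConjAct (G := G)).toEquiv
    have hdvd : p ∣ Nat.card A := by
      rw [hr]
      exact dvd_pow_self p two_ne_zero
    have hfix1 : (1 : A) ∈ MulAction.fixedPoints (ConjAct G) A := by
      intro g
      exact smul_one g
    obtain ⟨z, hz, hz1⟩ := hPG.exists_fixed_point_of_prime_dvd_card_of_fixed_point A hdvd hfix1
    have hzc : (z : G) ∈ Subgroup.center G := by
      rw [Subgroup.mem_center_iff]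
      intro g
      have h1 := hz (ConjAct.toConjAct g)
      have h2 := congrArg (Subtype.val) h1
      rw [ConjAct.Subgroup.val_conj_smul, ConjAct.smul_def, ConjAct.ofConjAct_toConjAct] at h2
      calc g * (z : G) = (g * z * g⁻¹) * g := by group
        _ = z * g := by rw [h2]
    have hz1' : (z : G) ≠ 1 := by
      intro h
      exact hz1 (Subtype.ext h.symm)
    have hordz : orderOf (z : G) = p := orderOf_eq_prime (hE z z.2) hz1'
    have hcz : Nat.card (Subgroup.zpowers (z : G)) = p := by rw [Nat.card_zpowers, hordz]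
    have hzA : Subgroup.zpowers (z : G) ≤ A := by
      rw [Subgroup.zpowers_le]; exact z.2
    have hpp : p < p ^ 2 := by
      have := hp.one_lt
      nlinarith
    obtain ⟨a, ha, haz⟩ : ∃ a ∈ A, a ∉ Subgroup.zpowers (z : G) := by
      by_contra hcon
      push Not at hcon
      have hle2 : A ≤ Subgroup.zpowers (z : G) := hcon
      have := Subgroup.card_le_of_le hle2
      rw [hcz, hr] at this
      omega
    have ha1 : a ≠ 1 := by
      rintro rfl
      exact haz (Subgroup.one_mem _)
    have hgen : A ≤ Subgroup.zpowers (z : G) ⊔ Subgroup.zpowers a := by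
      have hle3 : Subgroup.zpowers (z : G) ⊔ Subgroup.zpowers a ≤ A :=
        sup_le hzA (by rwa [Subgroup.zpowers_le])
      have hd1 : Nat.card (Subgroup.zpowers (z : G) ⊔ Subgroup.zpowers a : Subgroup G) ∣ p ^ 2 := by
        rw [← hr]
        exact Subgroup.card_dvd_of_le hle3
      obtain ⟨j, hj2, hj⟩ := (Nat.dvd_prime_pow hp).1 hd1
      have hj1 : 1 < j := by
        have hlt : Subgroup.zpowers (z : G) < Subgroup.zpowers (z : G) ⊔ Subgroup.zpowers a := by
          refine lt_of_le_of_ne le_sup_left ?_
          intro heq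
          apply haz
          rw [heq]
          exact (le_sup_right : Subgroup.zpowers a ≤ _) (Subgroup.mem_zpowers a)
        have hlt2 : Nat.card (Subgroup.zpowers (z : G)) <
            Nat.card (Subgroup.zpowers (z : G) ⊔ Subgroup.zpowers a : Subgroup G) := by
          rcases lt_or_eq_of_le (Subgroup.card_le_of_le hlt.le) with h | h
          · exact h
          · exact absurd (Subgroup.eq_of_le_of_card_ge hlt.le h.ge) hlt.ne
        rw [hcz, hj] at hlt2
        have : p ^ 1 < p ^ j := by rwa [pow_one]
        exact (Nat.pow_lt_pow_iff_right hp.one_lt).1 this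
      have hj' : j = 2 := by omega
      rw [hj'] at hj
      have : (Subgroup.zpowers (z : G) ⊔ Subgroup.zpowers a : Subgroup G) = A := by
        apply Subgroup.eq_of_le_of_card_ge hle3
        rw [hr, hj]
      exact this.ge
    have hZc : Subgroup.zpowers (z : G) ≤ Subgroup.center G := by
      rw [Subgroup.zpowers_le]; exact hzc
    have := key _ a hZc ha ha1 hgen
    omega

end Pool.CND
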